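import Mathlib
import Pool.Agent.D0H44.KC.Stm
import Pool.Agent.D0H28.EC.CQ

/-! Project KC, packages C1 and C2: reduction to primitive characters (after `t_CQ` of helper28). -/

set_option autoImplicit false

open Finset MeasureTheory

namespace Pool.Agent.D0H81.KC

open Pool.Agent.H398R2.BV Pool.Agent.H410R2
open Pool.Agent.D0H44.FR Pool.Agent.D0H44.KC
open Pool.Agent.D0H51.FR.CH (ncs ncs_bound SS_changeLevel)
open Pool.Agent.D0H28.EC.CQ

/-- the number of primitive characters of conductors dividing `m` -/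
theorem card_all (m : ℕ) (hm : 1 ≤ m) :
    ∑ f ∈ m.divisors, ((Prim f).card : ℝ) = Nat.totient m := by
  classical
  have : NeZero m := ⟨by omega⟩
  have h11 := sum_char_prim m (fun _ => 1) (fun _ _ => 1) (fun _ _ _ _ => rfl)
  have h4 := DirichletCharacter.card_eq_totient_of_hasEnoughRootsOfUnity ℂ m
  rw [← h4, Nat.card_eq_fintype_card]
  rw [sum_const, nsmul_eq_mul, mul_one, card_univ] at h11
  rw [h11]
  apply sum_congr rfl
  intro f _
  rw [sum_const, nsmul_eq_mul, mul_one]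

/-- all characters with a condition on the conductor -/
theorem all_prim (m M : ℕ) (hm : 1 ≤ m) (o : ℝ → ℝ) (hoo : ∀ y, 0 ≤ o y ∧ o y ≤ 1)
    (p : ℕ → Prop) [DecidablePred p] :
    ∑ Ψ : DirichletCharacter ℂ m, (if p Ψ.conductor then
      ‖Pool.Agent.D0H44.FR.SS M o m Ψ‖ else 0) ≤
      ∑ f ∈ m.divisors.filter p, ∑ ψ ∈ Prim f, ‖Pool.Agent.D0H44.FR.SS M o f ψ‖ +
        (Nat.totient m : ℝ) * ((m.primeFactors.card : ℝ) * Real.log M) := by
  classical
  have : NeZero m := ⟨by omega⟩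
  have hlog : 0 ≤ Real.log M := Real.log_natCast_nonneg M
  set E : ℝ := (m.primeFactors.card : ℝ) * Real.log M with hE
  have hE0 : 0 ≤ E := by positivity
  rw [sum_char_prim m (fun Ψ => if p Ψ.conductor then ‖Pool.Agent.D0H44.FR.SS M o m Ψ‖ else 0)
    (fun f ψ => if p f then ‖Pool.Agent.D0H44.FR.SS M o f ψ - ncs M m o f ψ‖ else 0)]
  · have h1 : ∑ f ∈ m.divisors, ∑ ψ ∈ Prim f,
        (if p f then ‖Pool.Agent.D0H44.FR.SS M o f ψ - ncs M m o f ψ‖ else 0) =
        ∑ f ∈ m.divisors.filter p, ∑ ψ ∈ Prim f,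
          ‖Pool.Agent.D0H44.FR.SS M o f ψ - ncs M m o f ψ‖ := by
      rw [sum_filter]
      apply sum_congr rfl
      intro f _
      by_cases hf : p f
      · simp [hf]
      · simp [hf]
    rw [h1]
    calc _ ≤ ∑ f ∈ m.divisors.filter p, ∑ ψ ∈ Prim f,
          (‖Pool.Agent.D0H44.FR.SS M o f ψ‖ + E) := by
          refine sum_le_sum fun f _ => sum_le_sum fun ψ _ => ?_
          exact (norm_sub_le _ _).trans (by
            have := ncs_bound M m f o hm hoo ψ
            linarith)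
      _ = ∑ f ∈ m.divisors.filter p, ∑ ψ ∈ Prim f, ‖Pool.Agent.D0H44.FR.SS M o f ψ‖ +
          (∑ f ∈ m.divisors.filter p, ((Prim f).card : ℝ)) * E := by
          rw [sum_mul, ← sum_add_distrib]
          apply sum_congr rfl
          intro f _
          rw [sum_add_distrib, sum_const, nsmul_eq_mul]
      _ ≤ _ := by
          have e1 : ∑ f ∈ m.divisors.filter p, ((Prim f).card : ℝ) ≤
              ∑ f ∈ m.divisors, ((Prim f).card : ℝ) :=
            sum_le_sum_of_subset_of_nonneg (filter_subset _ _) (fun _ _ _ => by positivity)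
          have e2 := mul_le_mul_of_nonneg_right (e1.trans_eq (card_all m hm)) hE0
          linarith
  · intro f h ψ hψ
    have hc : (DirichletCharacter.changeLevel h ψ).conductor = f := by
      rw [DirichletCharacter.conductor_changeLevel]
      unfold Prim at hψ
      rw [mem_filter] at hψ
      exact hψ.2
    simp only [hc]
    rw [SS_changeLevel]

theorem t_C1 : S_W → S_C1 := by
  classical
  intro hW x q M r hx hq hM hr hrq
  have hw : ∀ s, 0 ≤ w s ∧ w s ≤ 1 := hW.2.2.2.1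
  have hr1 : 1 < r := hr.one_lt
  have hq0 : NeZero q := ⟨by omega⟩
  have hr0 : NeZero r := ⟨by omega⟩
  have hqr1 : 1 ≤ q * r := Nat.mul_pos (by omega) (by omega)
  have hqr0 : NeZero (q * r) := ⟨by omega⟩
  have hcop : q.Coprime r := ((Nat.Prime.coprime_iff_not_dvd hr).mpr hrq).symm
  set o : ℝ → ℝ := fun y => w (y / x) with ho
  have hoo : ∀ y, 0 ≤ o y ∧ o y ≤ 1 := fun y => hw (y / x)
  have hφ : (0:ℝ) < Nat.totient q := by exact_mod_cast Nat.totient_pos.mpr (by omega)
  have hlog : 0 ≤ Real.log M := Real.log_natCast_nonneg M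
  -- the sums are sums with the products
  have h0 : ∀ (ω : DirichletCharacter ℂ q) (ψ : DirichletCharacter ℂ r),
      ∑ n ∈ Icc 1 M, ((ArithmeticFunction.vonMangoldt n : ℝ) : ℂ) *
        (((w ((n : ℝ) / x) : ℝ) : ℂ) * (ω (n : ZMod q) * ψ (n : ZMod r))) =
      Pool.Agent.D0H44.FR.SS M o (q * r) (pr q r ω ψ) := by
    intro ω ψ
    unfold Pool.Agent.D0H44.FR.SS
    apply sum_congr rfl
    intro n _
    rw [pr_apply, ho]
    ring
  have h1 : KR x q M r = ∑ β ∈ (univ : Finset (DirichletCharacter ℂ r)).erase 1,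
        ∑ α : DirichletCharacter ℂ q, ‖Pool.Agent.D0H44.FR.SS M o (q * r) (pr q r α β)‖ := by
    unfold KR
    refine sum_congr ?_ fun β _ => sum_congr rfl fun α _ => ?_
    · ext β
      simp only [mem_erase, mem_univ]
    · rw [h0]
  have h2 : ∑ β ∈ (univ : Finset (DirichletCharacter ℂ r)).erase 1,
        ∑ α : DirichletCharacter ℂ q, ‖Pool.Agent.D0H44.FR.SS M o (q * r) (pr q r α β)‖ ≤
      ∑ Ψ : DirichletCharacter ℂ (q * r), (if ¬ Ψ.conductor ∣ q then
        ‖Pool.Agent.D0H44.FR.SS M o (q * r) Ψ‖ else 0) := by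
    rw [← sum_filter, ← sum_product']
    have e1 : ∑ p ∈ ((univ : Finset (DirichletCharacter ℂ r)).erase 1) ×ˢ
        (univ : Finset (DirichletCharacter ℂ q)), ‖Pool.Agent.D0H44.FR.SS M o (q * r) (pr q r p.2 p.1)‖ =
        ∑ Ψ ∈ (((univ : Finset (DirichletCharacter ℂ r)).erase 1) ×ˢ
        (univ : Finset (DirichletCharacter ℂ q))).image (fun p => pr q r p.2 p.1),
          ‖Pool.Agent.D0H44.FR.SS M o (q * r) Ψ‖ := by
      rw [sum_image]
      intro p _ p' _ hpp
      obtain ⟨e2, e3⟩ := pr_inj q r (by omega) (by omega) hcop _ _ _ _ hpp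
      exact Prod.ext e3 e2
    rw [e1]
    apply sum_le_sum_of_subset_of_nonneg
    · intro Ψ hΨ
      rw [mem_image] at hΨ
      obtain ⟨p, hp, rfl⟩ := hΨ
      rw [mem_product, mem_erase] at hp
      rw [mem_filter]
      exact ⟨mem_univ _, pr_cond q r (by omega) (by omega) hcop _ _ hp.1.1⟩
    · intro Ψ _ _
      exact norm_nonneg _
  have h3 := all_prim (q * r) M hqr1 o hoo (fun f => ¬ f ∣ q)
  have h13 : (Nat.totient (q * r) : ℝ) ≤ Nat.totient q * r := by
    rw [Nat.totient_mul hcop, Nat.cast_mul]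
    apply mul_le_mul_of_nonneg_left _ hφ.le
    exact_mod_cast Nat.totient_le r
  have hE0 : 0 ≤ ((q * r).primeFactors.card : ℝ) * Real.log M := by positivity
  have h14 := mul_le_mul_of_nonneg_right h13 hE0
  rw [h1]
  refine h2.trans (h3.trans ?_)
  have e : ∀ f : ℕ, ∑ ψ ∈ Prim f, ‖Pool.Agent.D0H44.FR.SS M o f ψ‖ =
      ∑ ψ ∈ Prim f, ‖Pool.Agent.D0H44.FR.SS M (fun y => w (y / x)) f ψ‖ := fun f => rfl
  have h15 : ∑ f ∈ (q * r).divisors.filter (fun f => ¬ f ∣ q), ∑ ψ ∈ Prim f,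
      ‖Pool.Agent.D0H44.FR.SS M o f ψ‖ + (Nat.totient (q * r) : ℝ) *
        (((q * r).primeFactors.card : ℝ) * Real.log M) ≤
      ∑ f ∈ (q * r).divisors.filter (fun f => ¬ f ∣ q), ∑ ψ ∈ Prim f,
        ‖Pool.Agent.D0H44.FR.SS M o f ψ‖ + (Nat.totient q : ℝ) * r *
          (((q * r).primeFactors.card : ℝ) * Real.log M) := by linarith
  exact h15

theorem t_C2 : S_W → S_C2 := by
  classical
  intro hW x q M hx hq hM
  have hw : ∀ s, 0 ≤ w s ∧ w s ≤ 1 := hW.2.2.2.1
  have hq0 : NeZero q := ⟨by omega⟩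
  set o : ℝ → ℝ := fun y => w (y / x) with ho
  have hoo : ∀ y, 0 ≤ o y ∧ o y ≤ 1 := fun y => hw (y / x)
  have h1 : KN x q M ≤ ∑ Ψ : DirichletCharacter ℂ q, (if 2 ≤ Ψ.conductor then
        ‖Pool.Agent.D0H44.FR.SS M o q Ψ‖ else 0) := by
    unfold KN
    rw [← sum_filter]
    apply sum_le_sum_of_subset_of_nonneg
    · intro Ψ hΨ
      simp only [mem_erase, mem_univ, and_true] at hΨ
      have hΨ' : Ψ ≠ 1 := hΨ
      rw [mem_filter]
      refine ⟨mem_univ _, ?_⟩
      have h2 : Ψ.conductor ≠ 1 := fun h =>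
        hΨ' (DirichletCharacter.eq_one_iff_conductor_eq_one.mpr h)
      have h3 : Ψ.conductor ≠ 0 := fun h => by
        have h4 := Ψ.conductor_dvd_level
        rw [h, zero_dvd_iff] at h4
        omega
      omega
    · intro Ψ _ _
      exact norm_nonneg _
  exact h1.trans (all_prim q M hq o hoo (fun f => 2 ≤ f))

end Pool.Agent.D0H81.KC
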